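import Mathlib
import Pool.Agent.Lib.MP_05553e_gt.Defs
import Pool.Agent.Lib.MP_05553e_gt.Body

set_option autoImplicit false

open MeasureTheory Filter Topology Set Metric

namespace Pool.Agent.Results.MP_05553e_gt.NonAdmissible

open Pool.Agent.Lib.MP_05553e_gt

/-- The one-point body `{x}`. -/
noncomputable def pt {W : Type*} [NormedAddCommGroup W] [NormedSpace ℝ W] (x : W) : ConvexBody W :=
  ⟨{x}, convex_singleton x, isCompact_singleton, singleton_nonempty x⟩

theorem continuous_pt {W : Type*} [NormedAddCommGroup W] [NormedSpace ℝ W] :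
    Continuous (pt (W := W)) := by
  refine (Isometry.of_dist_eq fun x y => ?_).continuous
  rw [← ConvexBody.hausdorffDist_coe]
  exact hausdorffDist_singleton

/-- For every `n ≥ 4` there is an irreducible rational representation of `SL(n, ℝ)` on some `ℝ ^ d`,
with highest weight `2 ε_1 + ⋯ + 2 ε_{n-2}`, hence not admissible, which admits a non-trivial
invariant continuous Minkowski valuation `K₀(ℝ ^ n) → K(ℝ ^ d)`. -/
theorem result (n : ℕ) (hn : 4 ≤ n) :
    ∃ (d : ℕ) (ρ : Representation ℝ (SL n) (EuclideanSpace ℝ (Fin d))),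
      IsRational ρ ∧ ρ.IsIrreducible ∧
      HasHighestWeight ρ (fun i => if (i : ℕ) + 2 < n then 2 else 0) ∧ ¬ IsAdmissible ρ ∧
      ∃ Φ : K0 n → ConvexBody (EuclideanSpace ℝ (Fin d)),
        Continuous Φ ∧ IsMinkowskiValuation Φ ∧ IsInvariant ρ Φ ∧
        ∃ K, (Φ K : Set (EuclideanSpace ℝ (Fin d))) ≠ {0} := by
  have : Nontrivial (V n) := by
    refine ⟨ee ⟨0, by omega⟩, 0, fun h => ?_⟩
    have h1 := congrArg (fun x : V n => x ⟨0, by omega⟩) h
    simp [ee_apply] at h1
  refine ⟨_, rhoE n, rhoE_rational n, rhoE_irreducible (by omega), rhoE_highest (by omega),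
    rhoE_not_admissible hn, fun K => pt (coordW n (mu K)), ?_, ?_, ?_, ?_⟩
  · exact continuous_pt.comp continuous_coord
  · intro K L M N hM hN
    have h1 := mu_valuation K L M N hM hN
    apply ConvexBody.ext
    simp only [ConvexBody.coe_add, pt, ConvexBody.coe_mk, singleton_add_singleton]
    rw [← map_add, ← map_add, h1]
  · intro g K M h
    have h1 := mu_invariant g K M h
    simp only [pt, ConvexBody.coe_mk, image_singleton]
    rw [h1, rhoE, conjRep_apply, LinearEquiv.symm_apply_apply]
  · refine ⟨unitBall n, fun h => ?_⟩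
    simp only [pt, ConvexBody.coe_mk, singleton_eq_singleton_iff] at h
    have h1 : mu (unitBall n) = 0 := by
      apply (coordW n).injective
      rw [h, map_zero]
    exact mu_unitBall_ne (by omega) h1

end Pool.Agent.Results.MP_05553e_gt.NonAdmissible
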